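import Pool.Agent.J4H48.LA.Stm

set_option autoImplicit false

/-! Project LA (helper48), pieces CNT, NUM, DET. -/

namespace Pool.Agent.J4H91.LA

open Finset Pool.Agent.J4H48.LA

/-- the unit flow from `a` to `b` -/
def dl {m : ℕ} (a b s t : Fin (m + 1)) : ℤ :=
  (if s = a ∧ t = b then 1 else 0) - (if s = b ∧ t = a then 1 else 0)

theorem dl_anti {m : ℕ} (a b s t : Fin (m + 1)) : dl a b t s = -dl a b s t := by
  unfold dl
  have h1 : (if t = a ∧ s = b then (1 : ℤ) else 0) = if s = b ∧ t = a then 1 else 0 :=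
    if_congr and_comm rfl rfl
  have h2 : (if t = b ∧ s = a then (1 : ℤ) else 0) = if s = a ∧ t = b then 1 else 0 :=
    if_congr and_comm rfl rfl
  rw [h1, h2]
  ring

theorem dl_flow {m : ℕ} (a b s : Fin (m + 1)) :
    ∑ t, dl a b s t = (if s = a then 1 else 0) - (if s = b then 1 else 0) := by
  unfold dl
  rw [sum_sub_distrib]
  congr 1
  · by_cases h : s = a <;> simp [h]
  · by_cases h : s = b <;> simp [h]

theorem dl_zero {m : ℕ} {a b s t : Fin (m + 1)} (h1 : ¬ (s = a ∧ t = b)) (h2 : ¬ (s = b ∧ t = a)) :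
    dl a b s t = 0 := by
  unfold dl
  rw [if_neg h1, if_neg h2, sub_zero]

theorem dl_same {m : ℕ} {cls : Fin (m + 1) → Fin 3} {a b s t : Fin (m + 1)} (hab : cls a ≠ cls b)
    (hst : cls s = cls t) : dl a b s t = 0 := by
  apply dl_zero
  · rintro ⟨rfl, rfl⟩
    exact hab hst
  · rintro ⟨rfl, rfl⟩
    exact hab hst.symm

/-- the flow along the tree from `e₀` to `x` -/
def pth {m : ℕ} (cls : Fin (m + 1) → Fin 3) (e₀ f₀ x s t : Fin (m + 1)) : ℤ :=
  if x = e₀ then 0 else if cls x = cls e₀ then dl e₀ f₀ s t + dl f₀ x s t else dl e₀ x s t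

theorem pth_anti {m : ℕ} (cls : Fin (m + 1) → Fin 3) (e₀ f₀ x s t : Fin (m + 1)) :
    pth cls e₀ f₀ x t s = -pth cls e₀ f₀ x s t := by
  unfold pth
  split_ifs
  · rfl
  · rw [dl_anti, dl_anti f₀]; ring
  · rw [dl_anti]

theorem pth_same {m : ℕ} {cls : Fin (m + 1) → Fin 3} {e₀ f₀ : Fin (m + 1)} (h₀ : cls e₀ ≠ cls f₀)
    (x : Fin (m + 1)) {s t : Fin (m + 1)} (hst : cls s = cls t) : pth cls e₀ f₀ x s t = 0 := by
  unfold pth
  split_ifs with h1 h2
  · rfl
  · rw [dl_same h₀ hst, dl_same (fun h => h₀ (h2.symm.trans h.symm)) hst, add_zero]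
  · exact dl_same (fun h => h2 h.symm) hst

theorem pth_flow {m : ℕ} (cls : Fin (m + 1) → Fin 3) (e₀ f₀ x s : Fin (m + 1)) :
    ∑ t, pth cls e₀ f₀ x s t = (if s = e₀ then 1 else 0) - (if s = x then 1 else 0) := by
  unfold pth
  by_cases h1 : x = e₀
  · simp only [h1, if_true, sum_const_zero, sub_self]
  · simp only [h1, if_false]
    by_cases h2 : cls x = cls e₀
    · simp only [h2, if_true]
      rw [sum_add_distrib, dl_flow, dl_flow]
      ring
    · simp only [h2, if_false]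
      exact dl_flow _ _ _

/-- the pair in the order of the classes -/
def ori {m : ℕ} (cls : Fin (m + 1) → Fin 3) (a b : Fin (m + 1)) : Fin (m + 1) × Fin (m + 1) :=
  if cls a < cls b then (a, b) else (b, a)

theorem dl_ori {m : ℕ} {cls : Fin (m + 1) → Fin 3} {a b s t : Fin (m + 1)} (hst : cls s < cls t)
    (h : (s, t) ≠ ori cls a b) : dl a b s t = 0 := by
  apply dl_zero
  · rintro ⟨rfl, rfl⟩
    exact h (by unfold ori; rw [if_pos hst])
  · rintro ⟨rfl, rfl⟩
    exact h (by unfold ori; rw [if_neg (not_lt.2 hst.le)])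

theorem dl_ori' {m : ℕ} {cls : Fin (m + 1) → Fin 3} {a b s t : Fin (m + 1)} (hab : cls a ≠ cls b)
    (hst : cls s < cls t) (h : (s, t) ≠ ori cls b a) : dl a b s t = 0 := by
  apply dl_ori hst
  intro h'
  apply h
  rw [h']
  unfold ori
  rcases lt_trichotomy (cls a) (cls b) with h1 | h1 | h1
  · rw [if_pos h1, if_neg (not_lt.2 h1.le)]
  · exact absurd h1 hab
  · rw [if_pos h1, if_neg (not_lt.2 h1.le)]

/-- the tree -/
def tre {m : ℕ} (cls : Fin (m + 1) → Fin 3) (e₀ f₀ : Fin (m + 1)) :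
    Finset (Fin (m + 1) × Fin (m + 1)) :=
  (univ.erase e₀).image (fun x => ori cls (if cls x = cls e₀ then f₀ else e₀) x)

theorem pth_tre {m : ℕ} {cls : Fin (m + 1) → Fin 3} {e₀ f₀ : Fin (m + 1)} (h₀ : cls e₀ ≠ cls f₀)
    (x : Fin (m + 1)) {s t : Fin (m + 1)} (hst : cls s < cls t) (h : (s, t) ∉ tre cls e₀ f₀) :
    pth cls e₀ f₀ x s t = 0 := by
  have h' : ∀ y, y ≠ e₀ → (s, t) ≠ ori cls (if cls y = cls e₀ then f₀ else e₀) y := by
    intro y hy heq
    apply h
    unfold tre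
    rw [mem_image]
    exact ⟨y, mem_erase.2 ⟨hy, mem_univ _⟩, heq.symm⟩
  unfold pth
  split_ifs with h1 h2
  · rfl
  · have h3 := h' f₀ (fun h => h₀ (congrArg cls h).symm)
    rw [if_neg (fun h => h₀ h.symm)] at h3
    have h4 := h' x h1
    rw [if_pos h2] at h4
    rw [dl_ori hst h3, dl_ori hst h4, add_zero]
  · have h4 := h' x h1
    rw [if_neg h2] at h4
    exact dl_ori hst h4

theorem card_pairs {m : ℕ} (cls : Fin (m + 1) → Fin 3) :
    num cls 0 * num cls 1 + num cls 0 * num cls 2 + num cls 1 * num cls 2 ≤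
      (univ.filter (fun p : Fin (m + 1) × Fin (m + 1) => cls p.1 < cls p.2)).card := by
  unfold num
  set F : Fin 3 → Finset (Fin (m + 1)) := fun k => univ.filter (fun e => cls e = k) with hF
  have hm : ∀ (k l : Fin 3) (p : Fin (m + 1) × Fin (m + 1)), p ∈ F k ×ˢ F l ↔ cls p.1 = k ∧ cls p.2 = l := by
    intro k l p
    simp only [hF, mem_product, mem_filter, mem_univ, true_and]
  show (F 0).card * (F 1).card + (F 0).card * (F 2).card + (F 1).card * (F 2).card ≤ _
  rw [← card_product, ← card_product, ← card_product, ← card_union_of_disjoint, ← card_union_of_disjoint]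
  · apply card_le_card
    intro p hp
    rw [mem_union, mem_union, hm, hm, hm] at hp
    rw [mem_filter]
    refine ⟨mem_univ _, ?_⟩
    rcases hp with (h | h) | h <;> rw [h.1, h.2] <;> decide
  · rw [disjoint_left]
    intro p hp hp'
    rw [mem_union, hm, hm] at hp
    rw [hm] at hp'
    rcases hp with h | h
    · exact absurd (h.1.symm.trans hp'.1) (by decide)
    · exact absurd (h.1.symm.trans hp'.1) (by decide)
  · rw [disjoint_left]
    intro p hp hp'
    rw [hm] at hp hp'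
    exact absurd (hp.2.symm.trans hp'.2) (by decide)

theorem t_CNT : S_CNT := by
  rintro m cls ⟨e₀, f₀, h₀⟩
  set P := univ.filter (fun p : Fin (m + 1) × Fin (m + 1) => cls p.1 < cls p.2) with hP
  have hcard : gen cls ≤ (P \ tre cls e₀ f₀).card := by
    have h1 : num cls 0 * num cls 1 + num cls 0 * num cls 2 + num cls 1 * num cls 2 ≤ P.card :=
      card_pairs cls
    have h2 : (tre cls e₀ f₀).card ≤ m := by
      refine card_image_le.trans ?_
      rw [card_erase_of_mem (mem_univ _), card_univ, Fintype.card_fin]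
      omega
    have h3 := le_card_sdiff (tre cls e₀ f₀) P
    unfold gen
    omega
  obtain ⟨g⟩ := Function.Embedding.nonempty_of_card_le
    (show Fintype.card (Fin (gen cls)) ≤ Fintype.card (P \ tre cls e₀ f₀ : Finset _) by
      rwa [Fintype.card_fin, Fintype.card_coe])
  have hg1 : ∀ j, cls (g j).1.1 < cls (g j).1.2 := by
    intro j
    have := (mem_sdiff.1 (g j).2).1
    exact (mem_filter.1 this).2
  have hg2 : ∀ j, ((g j).1.1, (g j).1.2) ∉ tre cls e₀ f₀ := fun j => (mem_sdiff.1 (g j).2).2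
  refine ⟨fun j s t => dl (g j).1.1 (g j).1.2 s t + pth cls e₀ f₀ (g j).1.1 s t -
    pth cls e₀ f₀ (g j).1.2 s t, fun j => (g j).1.1, fun j => (g j).1.2, ?_, ?_⟩
  · intro j
    refine ⟨?_, ?_, ?_⟩
    · intro e f
      simp only []
      rw [dl_anti, pth_anti, pth_anti cls e₀ f₀ (g j).1.2]
      ring
    · intro e f hef
      simp only []
      rw [dl_same (hg1 j).ne hef, pth_same h₀ _ hef, pth_same h₀ _ hef]
      ring
    · intro e
      simp only []
      rw [sum_sub_distrib, sum_add_distrib, dl_flow, pth_flow, pth_flow]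
      ring
  · intro i j
    simp only []
    rw [pth_tre h₀ _ (hg1 i) (hg2 i), pth_tre h₀ _ (hg1 i) (hg2 i), add_zero, sub_zero]
    unfold dl
    have h1 : ¬ ((g i).1.1 = (g j).1.2 ∧ (g i).1.2 = (g j).1.1) := by
      rintro ⟨h1, h2⟩
      have h3 := hg1 i
      rw [h1, h2] at h3
      exact absurd h3 (not_lt.2 (hg1 j).le)
    rw [if_neg h1, sub_zero]
    by_cases hij : i = j
    · rw [if_pos hij, if_pos ⟨by rw [hij], by rw [hij]⟩]
    · rw [if_neg hij, if_neg]
      rintro ⟨h2, h3⟩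
      exact hij (g.injective (Subtype.ext (Prod.ext h2 h3)))

theorem five (n : ℕ) : n ^ 5 ≤ 200 * 2 ^ n := by
  rcases Nat.lt_or_ge n 7 with h | h
  · interval_cases n <;> norm_num
  · induction n, h using Nat.le_induction with
    | base => norm_num
    | succ n hn ih =>
      have h1 : (n + 1) ^ 5 ≤ 2 * n ^ 5 := by
        obtain ⟨k, rfl⟩ := Nat.exists_eq_add_of_le hn
        ring_nf
        nlinarith [Nat.zero_le k, Nat.zero_le (k ^ 2), Nat.zero_le (k ^ 3), Nat.zero_le (k ^ 4), Nat.zero_le (k ^ 5)]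
      calc (n + 1) ^ 5 ≤ 2 * n ^ 5 := h1
        _ ≤ 2 * (200 * 2 ^ n) := Nat.mul_le_mul_left 2 ih
        _ = 200 * 2 ^ (n + 1) := by rw [pow_succ]; ring

theorem t_NUM : S_NUM := by
  intro m lam hlam
  have h1 : (10 : ℝ) ^ 12 ≤ |(lam : ℝ)| := by
    have := (Int.cast_le (R := ℝ)).2 hlam
    push_cast at this
    norm_num
    exact this
  have h0 : (0 : ℝ) < |(lam : ℝ)| := lt_of_lt_of_le (by norm_num) h1
  have h2 : (0 : ℝ) < 2 ^ (m + 1) := by positivity
  unfold tau
  refine ⟨by positivity, ?_⟩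
  have h3 : ((m : ℝ) + 1) ^ 5 ≤ 200 * 2 ^ (m + 1) := by
    have := five (m + 1)
    have h : (((m + 1) ^ 5 : ℕ) : ℝ) ≤ ((200 * 2 ^ (m + 1) : ℕ) : ℝ) := by exact_mod_cast this
    push_cast at h
    exact h
  have h4 : (1 : ℝ) < Real.log |(lam : ℝ)| := by
    rw [Real.lt_log_iff_exp_lt h0]
    have := Real.exp_one_lt_d9
    linarith [h1, (by norm_num : (3 : ℝ) < 10 ^ 12)]
  refine lt_of_le_of_lt ?_ h4
  rw [show 3 * (10 ^ 9 * ((m : ℝ) + 1) / (|(lam : ℝ)| * 2 ^ (m + 1))) * ((m : ℝ) + 1) ^ 4 =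
    (3 * 10 ^ 9 * ((m : ℝ) + 1) ^ 5) / (|(lam : ℝ)| * 2 ^ (m + 1)) by ring]
  rw [div_le_one (by positivity)]
  calc 3 * 10 ^ 9 * ((m : ℝ) + 1) ^ 5 ≤ 3 * 10 ^ 9 * (200 * 2 ^ (m + 1)) := by gcongr
    _ = 6 * 10 ^ 11 * 2 ^ (m + 1) := by ring
    _ ≤ |(lam : ℝ)| * 2 ^ (m + 1) := by
      gcongr
      linarith [(by norm_num : (6 : ℝ) * 10 ^ 11 ≤ 10 ^ 12)]

theorem t_DET : S_DET := by
  intro g I _ N hN
  classical
  set M : Matrix I (Fin g) ℝ := Matrix.of N with hM
  have hinj : Function.Injective M.mulVecLin := by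
    rw [← LinearMap.ker_eq_bot, LinearMap.ker_eq_bot']
    intro x hx
    apply hN
    intro i
    exact congrFun hx i
  have hrank : M.rank = g := by
    unfold Matrix.rank
    rw [LinearMap.finrank_range_of_inj hinj, Module.finrank_fin_fun]
  have hspan : Module.finrank ℝ (Submodule.span ℝ (Set.range N)) = g := by
    have h : M.rank = Module.finrank ℝ (Submodule.span ℝ (Set.range M.row)) :=
      Matrix.rank_eq_finrank_span_row M
    exact h.symm.trans hrank
  obtain ⟨κ, a, ha1, ha2, ha3⟩ := exists_linearIndependent' ℝ N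
  have hfin : Finite κ := Finite.of_injective a ha1
  have := Fintype.ofFinite κ
  have hcard : Fintype.card κ = g := by
    rw [← hspan, ← ha2, finrank_span_eq_card ha3]
  have e : Fin g ≃ κ := (Fintype.equivFinOfCardEq hcard).symm
  refine ⟨fun j => a (e j), ?_⟩
  have hli : LinearIndependent ℝ (fun j => N (a (e j))) := ha3.comp e e.injective
  have h1 : LinearIndependent ℝ (Matrix.of fun (i b : Fin g) => N (a (e i)) b).row := hli
  rw [Matrix.linearIndependent_rows_iff_isUnit, Matrix.isUnit_iff_isUnit_det] at h1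
  exact h1.ne_zero

end Pool.Agent.J4H91.LA
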